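import Pool.Agent.H14.ND.TaoFinal

/-!
Almost all integers `n` (in natural density, with rate) have a 3x+1 orbit that comes down to a bounded value
within `5 log_2 |n|` steps.
-/

set_option autoImplicit false

namespace Pool.Agent.Results.MP_ff4775_nt.AlmostAllBounded

open Pool.Agent.H30

/-- For every `B` there is `C` such that for all `x, z ≥ 2` at most `C x (log z)^(-B)` of the integers `n` with
`|n| ≤ x` satisfy `|T^k n| > z` for all `k ≤ 5 log_2 |n|`, where `T` is the 3x+1 map. -/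
theorem result (B : ℕ) : ∃ C : ℝ, ∀ x z : ℝ, 2 ≤ x → 2 ≤ z →
    (Nat.card {n : ℤ // |(n : ℝ)| ≤ x ∧
      ∀ k : ℕ, (k : ℝ) ≤ 5 * Real.logb 2 |(n : ℝ)| → z < |((T^[k] n : ℤ) : ℝ)|} : ℝ) ≤
      C * x / (Real.log z) ^ B :=
  Pool.Agent.H14.ND.almost_all_bounded B

end Pool.Agent.Results.MP_ff4775_nt.AlmostAllBounded
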