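import Pool.Agent.H89.ND.Add
import Pool.Agent.H89.ND.Pos

/-!
# Natural densities of sets invariant under the 3x+1 map

Every set `U` of integers with `T n ∈ U ↔ n ∈ U` has a natural density `d U`; the convergence is uniform over all invariant sets,
`d` is countably additive on them, and `d U > 0` as soon as `U` contains a nonzero integer. The set of integers with divergent
trajectory is invariant, so it has a natural density, which is zero iff there is no divergent trajectory.

Idea of the proof. `T^(b+h) m ∈ U` iff `m ∈ U`. If `m ≤ x` is random and `2^(b+h) ≤ x`, the word of `m` is uniform, and the number of `m ≤ x` with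
`T^(b+h) m = n` depends on `n` modulo a power of `3`. Up to a small error in the mean this number is the binomial average over `q` of the
number of `m' ≤ 3^q x/2^b` with `T^h m' = n` (fine scale mixing, every power of the logarithm saved). So the density `f s` of `U` at the scale
`e^s` is almost harmonic: `f s = ∑_q bin(b,q) f(s + q log 3 - b log 2) + O(1/s)` for `b log 2 ≤ 0.9 s`. Averages of such functions over intervals of
length `log 2` are Lipschitz in `log s`, hence converge, uniformly, and `f` itself converges since `log 3/log 2` is irrational.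
-/

set_option autoImplicit false

namespace Pool.Agent.Results.MP_ff4775_nt.NaturalDensity

open Filter Topology Pool.Agent.H30

/-- There is a function `d` on sets of integers such that: (1) every set `U` that is invariant under `T` up to finitely many
integers has the natural density `d U`; (2) the convergence is uniform over all invariant sets; (3) `d` is countably additive on disjoint
invariant sets; (4) it is positive on every invariant set that contains a nonzero integer; (5) it is positive on the set of integers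
whose trajectory contains `a`, if `a` is not divisible by `3`. -/
theorem result : ∃ d : Set ℤ → ℝ,
    (∀ U : Set ℤ, {n : ℤ | ¬ (T n ∈ U ↔ n ∈ U)}.Finite →
      Tendsto (fun x : ℕ => (Nat.card {n : ℤ // n ∈ U ∧ |n| ≤ x} : ℝ) / (2 * x + 1)) atTop
        (𝓝 (d U))) ∧
    (∀ ε : ℝ, 0 < ε → ∃ N : ℕ, ∀ U : Set ℤ, (∀ n, T n ∈ U ↔ n ∈ U) → ∀ x : ℕ, N ≤ x →
      |(Nat.card {n : ℤ // n ∈ U ∧ |n| ≤ x} : ℝ) / (2 * x + 1) - d U| ≤ ε) ∧
    (∀ U : ℕ → Set ℤ, (∀ i n, T n ∈ U i ↔ n ∈ U i) → Pairwise (Function.onFun Disjoint U) →
      HasSum (fun i => d (U i)) (d (⋃ i, U i))) ∧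
    (∀ U : Set ℤ, (∀ n, T n ∈ U ↔ n ∈ U) → (∃ n ∈ U, n ≠ 0) → 0 < d U) ∧
    (∀ a : ℤ, ¬ (3 : ℤ) ∣ a → 0 < d {n : ℤ | ∃ k : ℕ, T^[k] n = a}) := by
  refine ⟨Pool.Agent.H89.ND.dens, ?_, ?_, ?_, ?_, ?_⟩
  · intro U hU
    obtain ⟨K, hK⟩ : ∃ K : ℕ, Pool.Agent.H89.ND.EvInv U K := by
      obtain ⟨M, hM⟩ := (hU.image fun n => |n|).bddAbove
      refine ⟨M.toNat, fun n hn => ?_⟩
      by_contra hcon
      have := hM (Set.mem_image_of_mem _ (show n ∈ {n : ℤ | ¬ (T n ∈ U ↔ n ∈ U)} from hcon))
      have h2 : M ≤ (M.toNat : ℤ) := Int.self_le_toNat M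
      omega
    exact Pool.Agent.H89.ND.tendsto_dens hK
  · intro ε hε
    obtain ⟨N, hN⟩ := Pool.Agent.H89.ND.dens_unif ε hε
    exact ⟨N, fun U hU x hx => hN U hU x hx⟩
  · exact Pool.Agent.H89.ND.dens_iUnion
  · intro U hU h
    exact Pool.Agent.H89.ND.dens_pos hU h
  · intro a ha
    exact Pool.Agent.H89.ND.pre_pos ha

end Pool.Agent.Results.MP_ff4775_nt.NaturalDensity
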