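import Pool.Agent.H30.Y

set_option autoImplicit false

namespace Pool.Agent.Results.MP_ff4775_nt.NoDescentBelowEntropy

open Pool.Agent.H30

/-- There are absolute constants `ε, δ, K > 0` such that every interval of `L ≥ 1` consecutive
integers contains at most `K * L ^ (H - δ)` integers `n` with `|T^j(n)| ≥ |n| / L ^ ε` for all
`j ≤ 2 (⌊log₂ L⌋ + 1)`, where `T` is the 3x+1 map and `H ≈ 0.94996` is the binary entropy
(in bits) of `log 2 / log 3`. -/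
theorem result : ∃ ε δ K : ℝ, 0 < ε ∧ 0 < δ ∧ 0 < K ∧ ∀ (A : ℤ) (L : ℕ), 1 ≤ L →
    ({n : ℤ | A ≤ n ∧ n < A + L ∧ ∀ j : ℕ, j ≤ 2 * (Nat.log 2 L + 1) →
        |(n : ℝ)| / (L : ℝ) ^ ε ≤ |(T^[j] n : ℝ)|}.ncard : ℝ) ≤
      K * (L : ℝ) ^ (Real.binEntropy (Real.log 2 / Real.log 3) / Real.log 2 - δ) := by
  obtain ⟨ε, δ, K, hε, hδ, hK, h⟩ := nodescent
  refine ⟨ε, δ, K, hε, hδ, hK, ?_⟩
  intro A L hL
  refine le_trans ?_ (h A L hL)
  have hL0 : (0:ℝ) < (L:ℝ) ^ ε := Real.rpow_pos_of_pos (by exact_mod_cast hL) _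
  rw [← Set.ncard_coe_finset]
  have : {n : ℤ | A ≤ n ∧ n < A + L ∧ ∀ j : ℕ, j ≤ 2 * (Nat.log 2 L + 1) →
        |(n : ℝ)| / (L : ℝ) ^ ε ≤ |(T^[j] n : ℝ)|} =
      (((Finset.Ico A (A + L)).filter (fun n =>
      ∀ j ≤ 2 * (Nat.log 2 L + 1), ((|n| : ℤ) : ℝ) ≤ (L:ℝ) ^ ε * ((|T^[j] n| : ℤ) : ℝ)) :
        Finset ℤ) : Set ℤ) := by
    ext n
    simp only [Finset.coe_filter, Finset.mem_Ico, Set.mem_ofPred_eq, Int.cast_abs, and_assoc]
    refine and_congr_right (fun _ => and_congr_right (fun _ => forall_congr' (fun j =>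
      imp_congr_right (fun _ => ?_))))
    rw [div_le_iff₀ hL0, mul_comm]
  rw [this]

end Pool.Agent.Results.MP_ff4775_nt.NoDescentBelowEntropy
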