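import Pool.Agent.H30.PD.Final

/-!
Preimages of the 3x+1 map have positive density: every integer `a` not divisible by 3 has at least
`c x/|a|` preimages of absolute value at most `x` (`x ≥ C |a|`), with absolute constants `c, C > 0`.
So one divergent trajectory forces a positive proportion of divergent starting values.
-/

set_option autoImplicit false

namespace Pool.Agent.Results.MP_ff4775_nt.PositiveDensity

open Filter Topology Pool.Agent.H30

/-- There are absolute constants `c, C > 0` such that for every integer `a` not divisible by `3`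
and every real `x ≥ C |a|` at least `c x / |a|` integers `n` with `|n| ≤ x` have `a` in their
trajectory under the 3x+1 map `T`; these `n` are positive exactly if `a` is positive, and have a
divergent trajectory if `a` has one. -/
theorem result : ∃ c C : ℝ, 0 < c ∧ 0 < C ∧ ∀ a : ℤ, ¬ (3 : ℤ) ∣ a → ∀ x : ℝ,
    C * |(a : ℝ)| ≤ x → c * x / |(a : ℝ)| ≤
      (Nat.card {n : ℤ | |(n : ℝ)| ≤ x ∧ (∃ k : ℕ, T^[k] n = a) ∧ (0 < n ↔ 0 < a) ∧
        (Tendsto (fun j : ℕ => |T^[j] a|) atTop atTop →
          Tendsto (fun j : ℕ => |T^[j] n|) atTop atTop)} : ℝ) :=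
  PD.dens_full

end Pool.Agent.Results.MP_ff4775_nt.PositiveDensity
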